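import Pool.Agent.H20.KH.Stmts
import Pool.Agent.H53.KG.THC

/-!
# Project KH, module VLS: variance of Lipschitz functions and posterior variance
-/

set_option autoImplicit false
set_option linter.unusedSectionVars false

open MeasureTheory Set Filter Topology
open scoped ContDiff

namespace Pool.Agent.H20.KH

open Pool.Agent.H84 Pool.Agent.H84.Sym Pool.Agent.H84.Sym.P2x Pool.Agent.H19.KL
open Pool.Agent.H73.KG

theorem vls_thm
    (hBAS : ∀ (E : Type) [NormedAddCommGroup E] [InnerProductSpace ℝ E] [FiniteDimensional ℝ E]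
      [MeasurableSpace E] [BorelSpace E], BASStmt E)
    (hIMP : ∀ (E : Type) [NormedAddCommGroup E] [InnerProductSpace ℝ E] [FiniteDimensional ℝ E]
      [MeasurableSpace E] [BorelSpace E], IMPStmt E)
    (hPWB : ∀ (E : Type) [NormedAddCommGroup E] [InnerProductSpace ℝ E] [FiniteDimensional ℝ E]
      [MeasurableSpace E] [BorelSpace E], PWBStmt E)
    (hRGC : ∀ (E : Type) [NormedAddCommGroup E] [InnerProductSpace ℝ E] [FiniteDimensional ℝ E]
      [MeasurableSpace E] [BorelSpace E], RGCStmt E)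
    (hBAY : ∀ (E : Type) [NormedAddCommGroup E] [InnerProductSpace ℝ E] [FiniteDimensional ℝ E]
      [MeasurableSpace E] [BorelSpace E], BAYStmt E)
    (hCVR : ∀ (E : Type) [NormedAddCommGroup E] [InnerProductSpace ℝ E] [FiniteDimensional ℝ E]
      [MeasurableSpace E] [BorelSpace E], CVRStmt E)
    (hCOV : ∀ (E : Type) [NormedAddCommGroup E] [InnerProductSpace ℝ E] [FiniteDimensional ℝ E]
      [MeasurableSpace E] [BorelSpace E], COVStmt E)
    (hFPB : ∀ (E : Type) [NormedAddCommGroup E] [InnerProductSpace ℝ E] [FiniteDimensional ℝ E]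
      [MeasurableSpace E] [BorelSpace E], FPBStmt E)
    (hFPI : FPIStmt) (hTHB : THBStmt) : VLSStmt := by
  obtain ⟨c, hc0, hc2, hTHB⟩ := hTHB
  refine ⟨c, 20, hc0, hc2, by norm_num, ?_⟩
  intro E _ _ _ _ _ U t hU hcov ι _ _ b T hT0 hTle
  refine ⟨hTHB E U t hU hcov ι b T hT0 hTle, ?_⟩
  intro f hf hf1
  set N := Module.finrank ℝ E with hN
  have hL := THC_L N
  have hL0 : 0 < L1 N * L2 N := by linarith
  have hT1 : T ≤ 1 := by
    refine hTle.trans ?_
    rw [div_le_one hL0]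
    linarith
  have hGf : GC f := THC_gc hf hf1
  have hPU := hU
  obtain ⟨⟨C, hP⟩, hpr⟩ := hU
  have ht0 : 0 < t := hP.pos
  -- the main estimate at one time
  have key : ∀ s, 0 < s → s ≤ T →
      EX U s (fun θ => ∑ i, cv (pw U s θ) f (li (b i)) * cv (pw U s θ) f (li (b i))) ≤
        10 / Real.sqrt s := by
    intro s hs hsT
    obtain ⟨p, hp1, hp⟩ := hTHB E U t hPU hcov _ b s hs (hsT.trans hTle)
    have hss : 0 < Real.sqrt s := Real.sqrt_pos.2 hs
    have hB := hBAY E U t hPU s hs.le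
    set a : E → ℝ := fun θ => 3 + (4 / 3) ^ p * FP p (cm b (pw U s θ)) with had
    have hpsd : ∀ θ, (cm b (pw U s θ)).PosSemidef := fun θ =>
      ((hBAS E).2.2.2.2.2.1 _ _ ((hPWB E U t hPU).1 s θ hs.le) _ b).1
    have ha1 : ∀ θ, 1 ≤ a θ := by
      intro θ
      have := (hFPI _ _ (hpsd θ) p hp1).1
      have h2 : 0 ≤ (4 / 3 : ℝ) ^ p * FP p (cm b (pw U s θ)) := by positivity
      simp only [had]
      linarith
    have hac : ∀ θ, CovLe (pw U s θ) (a θ) := by
      intro θ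
      exact (hBAS E).2.2.2.2.2.2 _ _ ((hPWB E U t hPU).1 s θ hs.le) _ b _
        (hFPI _ _ (hpsd θ) p hp1).2.2.2.2
    have hRG := (hRGC E).2.2.2.2.2.1
    have hFR := (hFPB E U t hPU _ b p hp1).1
    have hga : GC a := (GC.const 3).add ((GC.const _).mul (hRG _ hFR s hs).1)
    have hgr : GC (fun θ => a θ ^ ((3:ℝ) / 2)) := THC_gcr hga ha1
    have hgm : GC (fun θ => (1 / Real.sqrt s) * a θ ^ ((3:ℝ) / 2)) := (GC.const _).mul hgr
    have hg2 : GC (fun θ => ∑ i, cv (pw U s θ) f (li (b i)) * cv (pw U s θ) f (li (b i))) := by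
      refine GC.sum fun i => ?_
      have := (hRG _ (hCVR E U t hPU f _ hGf (BAS_li (b i))) s hs).1
      exact this.mul this
    have hrp : ∀ θ, a θ ^ ((3:ℝ) / 2) = a θ * Real.sqrt (a θ) := fun θ => THC_rp (ha1 θ)
    have hv : ∀ θ, cv (pw U s θ) f f ≤ Real.sqrt (a θ / s) := fun θ =>
      THC_var (hBAS E) (hIMP E) ((hPWB E U t hPU).1 s θ hs.le) hs (by linarith) (ha1 θ) (hac θ)
        hf hf1
    have hsq : ∀ θ, Real.sqrt (a θ / s) = (1 / Real.sqrt s) * Real.sqrt (a θ) := by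
      intro θ
      rw [Real.sqrt_div' _ hs.le]
      ring
    have hend : EX U s (fun θ => (1 / Real.sqrt s) * a θ ^ ((3:ℝ) / 2)) ≤ 10 / Real.sqrt s := by
      rw [hB.2.2.1]
      calc 1 / Real.sqrt s * EX U s (fun θ => a θ ^ ((3:ℝ) / 2)) ≤ 1 / Real.sqrt s * 10 :=
            mul_le_mul_of_nonneg_left hp (by positivity)
        _ = _ := by ring
    refine (hB.2.2.2.2.1 _ _ hg2 hgm fun θ => ?_).trans hend
    refine (THC_vec (hBAS E) ((hPWB E U t hPU).1 s θ hs.le) (ha1 θ) (hac θ) hGf (hv θ) b).trans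
      (le_of_eq ?_)
    rw [hsq, hrp]
    ring
  obtain ⟨hint, heq⟩ := hCOV E U t hPU f f hGf hGf _ b T hT0
  rw [heq]
  have hrint : IntervalIntegrable (fun s : ℝ => 10 * s ^ (-(1:ℝ) / 2)) volume 0 T :=
    (intervalIntegral.intervalIntegrable_rpow' (by norm_num)).const_mul 10
  have hI : (∫ s in (0:ℝ)..T, EX U s (fun θ => ∑ i, cv (pw U s θ) f (li (b i)) *
      cv (pw U s θ) f (li (b i)))) ≤ 20 * Real.sqrt T := by
    calc (∫ s in (0:ℝ)..T, EX U s (fun θ => ∑ i, cv (pw U s θ) f (li (b i)) *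
      cv (pw U s θ) f (li (b i)))) ≤ ∫ s in (0:ℝ)..T, 10 * s ^ (-(1:ℝ) / 2) := by
          refine intervalIntegral.integral_mono_on_of_le_Ioo hT0.le hint hrint fun s hs => ?_
          refine (key s hs.1 hs.2.le).trans (le_of_eq ?_)
          rw [Real.sqrt_eq_rpow, show (-(1:ℝ) / 2) = -(1 / 2) by norm_num,
            Real.rpow_neg hs.1.le, div_eq_mul_inv]
      _ = 20 * Real.sqrt T := by
          rw [intervalIntegral.integral_const_mul, integral_rpow (Or.inl (by norm_num))]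
          rw [show (-(1:ℝ) / 2 + 1) = 1 / 2 by norm_num, Real.zero_rpow (by norm_num),
            Real.sqrt_eq_rpow]
          ring
  have h5 : Real.sqrt T ≤ 1 := Real.sqrt_le_one.mpr hT1
  linarith

end Pool.Agent.H20.KH
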